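import Pool.Agent.Lib.DK.Ded

/-!
# Theorem DK, parts 0 and L: statements of the modules with proofs

Every statement `S_..` is proved in the file `DK/O/<name>.lean` as `theorem s<name> (hypotheses) : S_<name>`
(e.g. `theorem sO3 (h2 : S_O2) : S_O3`): hypotheses exactly the statements named after (from ..), in that
order. Read `DK/Defs.lean`, `DK/Base.lean` (elementary facts: `Nm_..`, `toC_..`, `lam_..`, `tor_..`) and
`DK/Ded.lean` (`O` is a Dedekind domain; `mem_O`) first. `NI a` is by definition `Ideal.absNorm a`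
(`Ideal.absNorm_apply`, `Submodule.cardQuot_apply`, or `rfl`). The statements `S_O2`, `S_O3`, .. which are
not in this file are in `DK/Iface.lean`.
-/

set_option autoImplicit false

open scoped Pointwise nonZeroDivisors

noncomputable section

namespace Pool.Agent.DK

open Pool.Agent.MuZ Pool.Agent.FW NumberField IsDedekindDomain
open Pool.Agent.DI (io ofC io_inj exists_io io_ofC ofC_io VP MP UP TP ex sqr sqr_sq kap)

/-- MODULE `O2` (60 lines): `S_O2`. PROOF. `NI = Ideal.absNorm` (the definitions unfold to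
`Nat.card (O ⧸ a)`), so it is multiplicative and vanishes only at `⊥` (`Ideal.absNorm_eq_zero_iff`;
`Module.Free`, `Module.Finite ℤ (OO k)` are instances of Mathlib). `NI (sp v) = |Algebra.norm ℤ v|`
(`Ideal.absNorm_span_singleton`), and `Algebra.norm ℤ v = QuadraticAlgebra.norm v`
(`QuadraticAlgebra.det_toLinearMap_eq_norm`, or `Algebra.norm_eq_matrix_det` for the basis `1, w`)
`= v.re * v.re + v.re * v.im + 2 k v.im * v.im = Nm v ≥ 0`. The other claims: `Nm_mul`, `Nm_nonneg`,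
`Nm_eq_zero`, `mul_cjO`, `conj_toC`, `Nm_norm` (`DK/Base.lean`). -/
abbrev M_O2 : Prop := S_O2

/-- MODULE `O3` (130 lines; from `S_O2`): `S_O3`. PROOF. `cjI b = Ideal.map (cjE k) b` (`cjE k` is the
ring automorphism `cjO`), `= Ideal.comap (cjE k) b` as `cjO` is an involution: claims 1, 2, `cjI (cjI a) = a`,
claim 4; `NI (cjI a) = NI a`: `O/a` and `O/cjI a` are isomorphic. THE IDENTITY `a * cjI a = sp (NI a)`: the
case `a = ⊥` is clear. Let `g` be the nonnegative generator of the ideal `{n : ℤ | (n : O) ∈ a * cjI a}` of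
`ℤ`; `g ≠ 0` (it contains `Nm v` for `v ≠ 0` in `a`). For `α`, `β` in `a`: `Nm α = α cjO α`, `Nm β` and
`α cjO β + β cjO α` (an integer `t`, the trace of `α cjO β`) are in `a * cjI a`, so divisible by `g`. The complex
number `toC (α cjO β)/g` is a root of `x ^ 2 - (t/g) x + Nm α Nm β/g ^ 2`, so integral, and `mem_O` gives
`α cjO β ∈ sp g`. So `a * cjI a ≤ sp g ≤ a * cjI a` (the products `α cjO β` generate). Norms (`S_O2`):
`NI a ^ 2 = g ^ 2`. Claim 5: apply `cjI` to `a ⊔ sp N = ⊤` (`cjI (sp N) = sp N`, `Ideal.map_sup`). Claim 6: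
conjugate `α`, `α'`. -/
abbrev M_O3 : Prop := S_O3

/-- MODULE `O4` (110 lines; from `S_O2`): `S_O4`. PROOF. `w (x + y w) = - 2 k y + (x + y) w`,
`(1 - w)(x + y w) = (x + 2 k y) - x w`. Membership: the set `{v | 2 ∣ v.re}` is an ideal which contains `2` and `w`;
`2 x' + y w = 2 x' + y w` is in `pp`. The set `{v | 2 ∣ v.re + v.im}` is an ideal which contains `2`, `1 - w`;
`x + y w = (x + y) - y (1 - w)`. They are prime: `v.re` modulo `2` is multiplicative (`re_mul`), and so is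
`v.re + v.im` modulo `2` (or: kernels of ring homomorphisms to `ZMod 2`); the quotients have two elements (surjective
to `ZMod 2`: `NI = 2`). `w (1 - w) = 2 k`; `pp * ppb = span {4, 2 (1 - w), 2 w, 2 k}` is `sp 2`
(`2 = 2 w + 2 (1 - w)`). `1 = w + (1 - w)`. `cjO w = 1 - w`. -/
abbrev M_O4 : Prop := S_O4

/-- MODULE `O5` (60 lines): `S_O5`. PROOF. The class group of `O` is finite:
`ClassGroup.fintypeOfAdmissibleOfFinite ℚ (FractionRing (OO k)) AbsoluteValue.absIsAdmissible` with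
`IsIntegralClosure (OO k) ℤ (FractionRing (OO k))` (`IsIntegralClosure.of_isIntegrallyClosed`;
`OO k` is a finite `ℤ`-module, so integral). If instance problems arise: replace `FractionRing (OO k)` by
`QuadraticAlgebra ℚ (-(2 * k)) 1` or by the subfield `{toC v / n}` of `ℂ`. Then
`ClassGroup.mk0 ⟨a, _⟩ ^ h = 1` with `h` the order of the group, `ClassGroup.mk0_eq_one_iff`. -/
abbrev M_O5 : Prop := S_O5

/-- MODULE `O6` (130 lines; from `S_O2`): `S_O6`. PROOF. `PrI a N` is `IsCoprime a (sp N)` as ideals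
(`Ideal.isCoprime_iff_sup_eq`), `sp (N * N') = sp N * sp N'`: `IsCoprime.mul_left_iff`, `mul_right_iff`. Claim 3:
if `(NI a).Coprime N` use `NI a ∈ a` (`Ideal.absNorm_mem`) and a Bezout identity. If `a ⊔ sp N = ⊤` then `N` is a unit
in the finite ring `O/a` (`a = ⊥`: `N` is a unit in `O`, `N ^ 2 = Nm N = 1`; `NI ⊥ = 0`); if a prime `p` divides `N` and
`NI a = card (O/a)` there is `x ≠ 0` in `O/a` with `p x = 0` (`exists_prime_addOrderOf_dvd_card`), but `p` is a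
unit. Claim 4: claim 3 and `NI (sp v) = Nm v` (`S_O2`); `Int.isCoprime_iff_gcd_eq_one`. Claim 5: `1 = v + N u`
with `v ∈ a`; if `v = 0` then `N = 1` (norms), and any nonzero `v` of `a` will do. -/
abbrev M_O6 : Prop := S_O6

/-- MODULE `O7a` (150 lines; from `S_O2`, `S_O6`). THE RAY CLASS RELATION without finiteness. PROOF. Multiply the
relations; cancel `c ≠ ⊥` in the Dedekind domain `O` (`mul_right_cancel₀`). `Ray N a b` implies
(`a ≠ ⊥ ↔ b ≠ ⊥`) and, by claims 1 and 4 of `S_O6`, (`PrI a N ↔ PrI b N`). Elements: if `α v = ε α' u` (`ε` a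
unit, `Ideal.span_singleton_eq_span_singleton`), `Nm ε = 1` (norms, `Nm ≥ 0`), so
`4 = (2 ε.re + ε.im) ^ 2 + (8 k - 1) ε.im ^ 2`, `ε.im = 0`, `ε = ± 1`; then `N ∣ α (v ∓ u)` and `α` is invertible
modulo `N` (`cop_inv`). Conversely, `N ∣ v ∓ u`: let `w ≠ 0` with `Cop w N` (`w = 1` is enough!): `α = u`,
`α' = ± v` satisfy `sp α * sp v = sp α' * sp u` and `N ∣ α - α'`. The inverse: claim 5 of
`S_O6`: `v ∈ a`, `N ∣ v - 1`, `v ≠ 0`; `sp v = a * a'` (`Ideal.dvd_iff_le`), `Ray N (sp v) ⊤` with `α = 1`, `α' = v`. -/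
def S_O7a : Prop :=
  ∀ (k : ℕ) [SqK k] (N : ℕ), 0 < N →
    (∀ a : Ideal (OO k), Ray N a a) ∧ (∀ a b : Ideal (OO k), Ray N a b → Ray N b a) ∧
    (∀ a b c : Ideal (OO k), Ray N a b → Ray N b c → Ray N a c) ∧
    (∀ a b c d : Ideal (OO k), Ray N a b → Ray N c d → Ray N (a * c) (b * d)) ∧
    (∀ a b c : Ideal (OO k), c ≠ ⊥ → PrI c N → Ray N (a * c) (b * c) → Ray N a b) ∧
    (∀ a b : Ideal (OO k), Ray N a b → (a ≠ ⊥ ↔ b ≠ ⊥) ∧ (PrI a N ↔ PrI b N)) ∧
    (∀ (M : ℕ) (a b : Ideal (OO k)), M ∣ N → Ray N a b → Ray M a b) ∧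
    (∀ v u : OO k, v ≠ 0 → u ≠ 0 → Cop v N → Cop u N →
      (Ray N (sp v) (sp u) ↔ (N : OO k) ∣ v - u ∨ (N : OO k) ∣ v + u)) ∧
    ∀ a : Ideal (OO k), a ≠ ⊥ → PrI a N → ∃ a' : Ideal (OO k), a' ≠ ⊥ ∧ PrI a' N ∧ Ray N (a * a') ⊤

/-- MODULE `O7b` (130 lines; from `S_O5`, `S_O6`, `S_O7a`). FINITENESS OF THE RAY CLASS GROUP. PROOF. Let `G`
be the set of the ideals `≠ ⊥` prime to `N`. The ideal class group is finite (`ClassGroup`, as in module `O5`; or use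
`S_O5`: you may prove the finiteness again, or import the lemma of `DK/O/O5.lean` if it has landed). For each
ideal class which meets `G` choose `b_C` in it and `a_C ∈ G` with `b_C a_C = sp v_C`, `N ∣ v_C - 1` (last claim of
`S_O7a` and its proof: `v ∈ b_C`, claim 5 of `S_O6`). For `b ∈ G` in the class `C`: `b a_C` is principal, `= sp β`,
and `Cop β N`. If `b`, `b'` have the same class `C` and `N ∣ β - β'`: `sp v_C * b = sp β * b_C`,
`sp v_C * b' = sp β' * b_C`, so `sp (β' v_C) * b = sp (β v_C) * b'`: `Ray N b b'`. So the quotient of `G` by `Ray N`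
injects into `ClassGroup (OO k) × (OO k ⧸ sp N)`, which is finite; take `R` = a set of representatives
(`Finite`, `Quotient.out`, `Set.Finite.toFinset`). -/
def S_O7b : Prop := ∀ (k : ℕ) [SqK k] (N : ℕ), 0 < N → ∃ R : Finset (Ideal (OO k)), IsRC N R

/-- MODULE `O7` (10 lines; from `S_O7a`, `S_O7b`): `S_O7`. -/
abbrev M_O7 : Prop := S_O7

/-- MODULE `O8a` (120 lines). PRIMITIVE REPRESENTATIVES. PROOF. Let `M'` be the product of the primes which divide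
`M` but not `N`. CRT: `x ≡ β₀.re` mod `N`, `x ≡ 1` mod `M'`, `x ≠ 0` (add `N M'` if necessary), `y₁ ≡ β₀.im` mod `N`,
`y₁ ≡ 0` mod `M'`. Let `t` be the product of the primes which divide `x` but neither `N M'` nor `y₁`, and
`y = y₁ + N M' t`. If a prime `r` divides `x` and `y`: if `r ∣ N`, `r` divides `β₀.re`, `β₀.im` and so `Nm β₀`, a
contradiction to `Cop β₀ N`; if `r ∣ M'`: `x ≡ 1`; otherwise, if `r ∣ y₁` then `r ∤ t` and `r ∤ N M' t`; if `r ∤ y₁`
then `r ∣ t`, `y ≡ y₁`. So `x`, `y` are coprime. `Nm β ≡ Nm β₀` mod `N` and `Nm β ≡ 1` mod `M'`. -/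
def S_O8a : Prop :=
  ∀ (k : ℕ) [SqK k] (N M : ℕ), 0 < N → 0 < M → ∀ β₀ : OO k, Cop β₀ N →
    ∃ β : OO k, β ≠ 0 ∧ (N : OO k) ∣ β - β₀ ∧ Cop β (N * M) ∧ IsCoprime β.re β.im

/-- MODULE `O8b` (120 lines; from `S_O2`). PRIMITIVE ELEMENTS ARE PRODUCTS OF PRIMES OF DEGREE ONE. PROOF. Show
`C J` for all `J ∣ sp β` by induction on `NI J` (`J ≠ ⊥`). `J = ⊤`: clear. Otherwise `J ≤ P`, `P` maximal, `J = P * J'`
(`Ideal.dvd_iff_le`), `NI J' < NI J`. Let `p` be the prime number in `P` (`O/P` is a finite field, `p` its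
characteristic). `NI P ∣ NI (sp p) = p ^ 2` and `NI P ≠ 1`. If `NI P = p ^ 2` then `P = sp p` (`P ∣ sp p` with the same norm),
so `p ∣ β` and `p` divides `β.re` and `β.im` (`nat_dvd_iff`), a contradiction. So `NI P = p`: `Deg1 P p`, and
`p = NI P ∣ NI (sp β) = Nm β`. -/
def S_O8b : Prop :=
  ∀ (k : ℕ) [SqK k] (β : OO k), β ≠ 0 → IsCoprime β.re β.im → ∀ C : Ideal (OO k) → Prop, C ⊤ →
    (∀ a b, C a → C b → C (a * b)) → (∀ (q : Ideal (OO k)) (l : ℕ), Deg1 q l → (l : ℤ) ∣ Nm β → C q) →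
    C (sp β)

/-- MODULE `O8` (150 lines; from `S_O2`, `S_O6`, `S_O7`, `S_O8a`, `S_O8b`): `S_O8`. PROOF. Call `a` (`a ≠ ⊥`, `PrI a N`)
good if the conclusion holds for `a`. (1) Good ideals are closed under products. (2) If `a` is good and
`Ray N (a * a₁) ⊤`, `PrI a₁ N`, then `a₁` is good: let `a'` be as in the conclusion for `a`; by the finiteness
(`S_O7`) two of the powers of `a'` have the same class, so (cancel) `Ray N (a' ^ n) ⊤`, `n ≥ 1`, and `a₁` has the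
class of `a' ^ (n - 1)`. (3) `sp α` is good if `Cop α N`, `α ≠ 0`: `S_O8a` and `S_O8b` (`l ∣ Nm β` implies
`l.Coprime (N * M)`), `Ray N (sp α) (sp β)`. (4) A prime ideal `P ≠ ⊥` prime to `N M` is good: as in the proof of
`S_O8b` either `Deg1 P l` (then `a' = P`; `l` is prime to `N M` by `S_O6`) or `P = sp p`, and (3). So every
`c ≠ ⊥` prime to `N M` is good (induction on the factorisation, (1)). (5) General `a`: there is `α ∈ a` with
`a = a * sp (N M) ⊔ sp α` (`IsDedekindDomain.exists_sup_span_eq`, `J = a * sp (N M) ≤ a`); `sp α = a * c`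
and `c ⊔ sp (N M) = ⊤` (cancel `a`), so `c` is prime to `N M` and `Cop α N`. `c` is good by (4), `sp α` by (3); `c₁` with
`Ray N (c * c₁) ⊤` is good by (2), and `a` has the class of `sp α * c₁`. (`α ≠ 0`: `c ≠ ⊥` unless `a = ⊥`;
if `α = 0`, then `a = a * sp (N M)`, `N M = 1` and take another `α`.) -/
abbrev M_O8 : Prop := S_O8

/-- MODULE `O9` (40 lines; from `S_O2`, `S_O6`): `S_O9`. PROOF. `Nm α * NI a = Nm α' * NI a'` (`S_O2`),
`N ∣ Nm α - Nm α'` (`Nm_congr`), `Nm α` is prime to `N`. -/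
abbrev M_O9 : Prop := S_O9

/-! ## Lattices -/

/-- MODULE `L0` (60 lines; from `S_O2`). `Lam I` AS AN IDEAL. PROOF. If `v ∈ c`, `u ∈ I` then `u v ∈ sp n`, so
`toC u * toC v / n ∈ toC O`. Conversely `n ∈ I * c ≤ I`, so `n z = toC v`; for `u ∈ I`, `toC u * z = toC u'` gives
`u v = n u'`, so `I * sp v ≤ sp n = I * c` and `sp v ≤ c` (cancel `I`: `Ideal.mul_le_mul_left_iff`-type lemma or
`dvd`). Existence of `c`: `sp n ≤ I` means `I ∣ sp n`. -/
def S_L0 : Prop :=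
  ∀ (k : ℕ) [SqK k] (I : Ideal (OO k)), I ≠ ⊥ →
    (∃ n : ℕ, 0 < n ∧ (n : OO k) ∈ I) ∧ (∀ n : ℕ, 0 < n → (n : OO k) ∈ I → ∃ c : Ideal (OO k),
      c ≠ ⊥ ∧ I * c = sp (n : OO k)) ∧
    ∀ (n : ℕ) (c : Ideal (OO k)), 0 < n → I * c = sp (n : OO k) →
      ∀ z : ℂ, z ∈ Lam I ↔ ∃ v ∈ c, z = toC v / n

/-- MODULE `L1` (100 lines; from `S_L0`): `S_L1`. PROOF. `S_L0`: `Lam b = toC c / n`, `c ≠ ⊥`. `c` is a free
`ℤ`-module of rank 2: `Ideal.selfBasis` for the basis of `OO k` (`QuadraticAlgebra.basis`): `c₁`, `c₂`; put `ω_i = toC c_i / n`. `ℝ`-independence: the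
real span of `ω₁`, `ω₂` contains `toC c / n`, hence (`m ∈ c` for some integer `m > 0`) `m/n` and `m wC/n`, which
span `ℂ` (`wC_im_pos`); two vectors which span a space of dimension 2 are independent
(`linearIndependent_of_top_le_span_of_card_eq_finrank`). So there is a `PeriodPair` with this lattice; `LP b` is
chosen (`dif_pos`, `Exists.choose_spec`). -/
abbrev M_L1 : Prop := S_L1

/-- MODULE `L2` (30 lines; from `S_O3`): `S_L2`. PROOF. `lam_zero`, `lam_add`, `lam_neg`, `lam_mul`, `lam_prod`,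
`lam_mono`, `lam_sp`, `lam_top`, `tor_lam`, `tor_iff` (`DK/Base.lean`). Conjugation: `v ∈ cjI b ↔ cjO v ∈ b`
(`S_O3`) and `conj (toC v * z) = toC (cjO v) * conj z` (`conj_toC`). -/
abbrev M_L2 : Prop := S_L2

/-- MODULE `L3` (150 lines; from `S_L0`): `S_L3`. PROOF. Let `n > 0` be an integer in `a * b` and `c` with
`a * b * c = sp n`. By `S_L0`: `Lam (a b) = toC c/n`, `Lam b = toC (a c)/n`, and for `a = a' * a''`:
`Lam (a' b) = toC (a'' c)/n`. (1) `c = a c ⊔ sp γ` for some `γ ∈ c` (`IsDedekindDomain.exists_sup_span_eq`); `z = toC γ / n`.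
If `a < a'` then `a = a' a''` with `a'' ≠ ⊤`; if `z ∈ Lam (a' b)`, `γ ∈ a'' c`, so `c ≤ a'' c`, `a'' = ⊤`. (2) `J = {v | toC v * g ∈ Lam b}` is an
ideal `≥ a`; if `J ≠ a`: `g ∈ Lam (J b)` (`lam_prod`), a contradiction. Let `g = toC γ/n`, `γ ∈ c`,
`a c ⊔ sp γ = d * c` (it is `≤ c`); `a c ≤ d c` gives `a ≤ d`, `a = d a''`. If `d ≠ ⊤` then `a < a''`
(`a'' = a` would give `d = ⊤`) and `γ ∈ d c` gives `g ∈ Lam (a'' b)`, a contradiction. So `c = a c ⊔ sp γ`,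
which is the second claim. (3) `R` = the image of a set of representatives of `O/a` (finite: `Ring.HasFiniteQuotients`)
under `v ↦ toC v * g`; injective by (2). -/
abbrev M_L3 : Prop := S_L3

/-- MODULE `L4` (70 lines): `S_L4`. PROOF. `a = {v | toC v * z ∈ Lam b}` is an ideal (`lam_..`), `≠ ⊥`
(`tor_iff`), `z ∈ Lam (a b)` by `lam_prod`. Coprime: `1 = v + v'`, `v ∈ a`, `v' ∈ a'`; `z = toC v z + toC v' z`, and
`lam_prod`. -/
abbrev M_L4 : Prop := S_L4

/-- MODULE `L5` (50 lines): `S_L5`. PROOF. `1 = v + N u`, `v ∈ a` (`PrI a N`; `Submodule.mem_sup`,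
`Ideal.mem_span_singleton`). (1) `z = toC v z + toC u (N z)`. (2) `z' = toC v z`: `z - z' = toC u (N z) ∈ Lam (a b)`,
`N z' = toC v (N z) ∈ Lam b` (`lam_prod`). -/
abbrev M_L5 : Prop := S_L5

/-- MODULE `L6a` (150 lines; from `S_O4`, `S_L3`). THE POINTS `T`, `S`, `t`. PROOF. For `m = pp k`, `ppb k`,
`ppb k ^ 2` the element `g = gen m b` is the chosen one in `S_L3` (1) (`dif_pos`, `choose_spec`): `g ∈ Lam (m b)`,
`g ∉ Lam (m' b)` for `m < m'`; `m' = ⊤`: `g ∉ Lam b`; for `t` also `t ∉ Lam (ppb b)` (`ppb ^ 2 < ppb`). By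
`S_L3` (2) every `z ∈ Lam (m b)` is `toC v * g` modulo `Lam b`. For `m = pp`: `v ∈ pp` or `v - 1 ∈ pp` (`S_O4`:
parity of `v.re`): first two claims. `2 ∈ pp`, so `2 T ∈ Lam b`. `S + T ∈ Lam b` would give
`S ∈ Lam (pp b) ∩ Lam (ppb b) = Lam b` (`1 = w + (1 - w)`, `lam_prod`). `z ∈ Lam (sp 2 * b)` is a sum (`z = w z + (1 - w) z`, `w z ∈ Lam (ppb b)`,
`(1 - w) z ∈ Lam (pp b)` because `w (1 - w) = 2 k`). `2 t`: for `v ∈ ppb`, `2 v ∈ ppb ^ 2`
(`2 ∈ ppb`), so `2 t ∈ Lam (ppb b)`; by `S_L3` (2) `2 t ∈ Lam b` iff `2 ∈ ppb ^ 2`, which is false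
(`sp 2 = pp * ppb`, so `ppb ^ 2 ∣ pp * ppb`, `ppb ∣ pp`, `ppb = pp`). So `2 t - S ∈ Lam b`. -/
def S_L6a : Prop :=
  ∀ (k : ℕ) [SqK k] (b : Ideal (OO k)), b ≠ ⊥ →
    (ptT b ∈ Lam (pp k * b) ∧ ptT b ∉ Lam b ∧ ∀ z ∈ Lam (pp k * b), z ∈ Lam b ∨ z - ptT b ∈ Lam b) ∧
    (ptS b ∈ Lam (ppb k * b) ∧ ptS b ∉ Lam b ∧
      ∀ z ∈ Lam (ppb k * b), z ∈ Lam b ∨ z - ptS b ∈ Lam b) ∧
    (2 * ptT b ∈ Lam b ∧ 2 * ptS b ∈ Lam b ∧ ptS b + ptT b ∉ Lam b ∧ ptS b - ptT b ∉ Lam b ∧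
      ∀ z : ℂ, 2 * z ∈ Lam b →
        z ∈ Lam b ∨ z - ptT b ∈ Lam b ∨ z - ptS b ∈ Lam b ∨ z - (ptS b + ptT b) ∈ Lam b) ∧
    (2 * ptt b - ptS b ∈ Lam b ∧ ptt b ∈ Lam (ppb k ^ 2 * b) ∧ ptt b ∉ Lam (ppb k * b) ∧
      ptt b + ptS b + ptt b ∈ Lam b)

/-- MODULE `L6` (150 lines; from `S_O3`, `S_O4`, `S_L2`, `S_L3`, `S_L5`, `S_L6a`): `S_L6`. PROOF. Let `b' = ppb b`. `T ∈ Lam (pp b) ≤ Lam (pp b')`; `T ∈ Lam b'` would
give `T ∈ Lam (pp b) ∩ Lam (ppb b) = Lam b`; so `T` is congruent to `ptT b'` modulo `Lam b'` (`S_L6a` for `b'`: `T ∈ Lam b'` or `T - ptT b' ∈ Lam b'`). The same for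
`S` and `pp b`, and `t ∈ Lam (ppb ^ 2 b) = Lam (ppb b')`, `t ∉ Lam b'`, so it is congruent to `ptS b'`. `ptt`: let `b' = pp b` or `b' = a b` with `PrI a 2`.
`t' = ptt b'` generates `Lam (ppb ^ 2 b') / Lam b' ≅ O/ppb ^ 2` (`S_L3`), which has the elements `0, 1, 2, 3`
(`2 ∉ ppb ^ 2`, `4 ∈ ppb ^ 2`, norm `4`): `t = j t'` modulo `Lam b'`; `j` is odd because `2 t` is not in `Lam b'`: `2 t`
is congruent to `S`, which is not in `Lam b'` (if `S ∈ Lam (a b)`, `2 S ∈ Lam b`: `S_L5` gives `S ∈ Lam b`;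
for `pp b`: above). So `t ∓ t' ∈ Lam b'`. For `a` prime to `2`: `T ∈ Lam (pp b) ≤ Lam (pp (a b))`, not in `Lam (a b)` by
`S_L5`. Conjugation: `S_L2` (`z ∈ Lam (cjI b) ↔ conj z ∈ Lam b`), `cjI (pp * b) = ppb * cjI b` (`S_O3`, `S_O4`). -/
abbrev M_L6 : Prop := S_L6

end Pool.Agent.DK
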