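import Pool.Agent.Lib.DK.O.Spec

/-!
# Theorem DK, module O4: the primes above `2`
-/

set_option autoImplicit false

open scoped Pointwise nonZeroDivisors

noncomputable section

namespace Pool.Agent.DK

variable {k : ℕ}

private lemma O4_re_two : (2 : OO k).re = 2 := by
  have h := re_nat (k := k) 2
  exact_mod_cast h

private lemma O4_im_two : (2 : OO k).im = 0 := by
  have h := im_nat (k := k) 2
  exact_mod_cast h

private lemma O4_sub_w : (1 - wI k : OO k) = ⟨1, -1⟩ := by
  apply ext'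
  · rw [QuadraticAlgebra.re_sub, re_one]
    simp [wI]
  · rw [QuadraticAlgebra.im_sub, im_one]
    simp [wI]

/-- Membership in `𝔭`. -/
lemma O4_mem_pp (v : OO k) : v ∈ pp k ↔ (2 : ℤ) ∣ v.re := by
  unfold pp
  rw [Ideal.mem_span_pair]
  constructor
  · rintro ⟨c, d, rfl⟩
    rw [QuadraticAlgebra.re_add, re_mul, re_mul, O4_re_two, O4_im_two]
    simp only [wI]
    exact ⟨c.re - k * d.im, by ring⟩
  · rintro ⟨x, hx⟩
    refine ⟨⟨x, 0⟩, ⟨v.im, 0⟩, ext' ?_ ?_⟩
    · rw [QuadraticAlgebra.re_add, re_mul, re_mul, O4_re_two, O4_im_two, hx]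
      simp only [wI]
      ring
    · rw [QuadraticAlgebra.im_add, im_mul, im_mul, O4_re_two, O4_im_two]
      simp only [wI]
      ring

/-- Membership in `𝔭̄`. -/
lemma O4_mem_ppb (v : OO k) : v ∈ ppb k ↔ (2 : ℤ) ∣ v.re + v.im := by
  unfold ppb
  rw [Ideal.mem_span_pair, O4_sub_w]
  constructor
  · rintro ⟨c, d, rfl⟩
    rw [QuadraticAlgebra.re_add, QuadraticAlgebra.im_add, re_mul, re_mul, im_mul, im_mul, O4_re_two,
      O4_im_two]
    exact ⟨c.re + c.im + k * d.im, by ring⟩
  · rintro ⟨x, hx⟩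
    refine ⟨⟨x, 0⟩, ⟨-v.im, 0⟩, ext' ?_ ?_⟩
    · rw [QuadraticAlgebra.re_add, re_mul, re_mul, O4_re_two, O4_im_two]
      linear_combination -hx
    · rw [QuadraticAlgebra.im_add, im_mul, im_mul, O4_re_two, O4_im_two]
      ring

private lemma O4_zm (m : ℤ) : ((m : ℤ) : ZMod 2) = 0 ↔ (2 : ℤ) ∣ m :=
  ZMod.intCast_zmod_eq_zero_iff_dvd m 2

private lemma O4_two_mul (x : ZMod 2) : 2 * x = 0 := by
  have h : (2 : ZMod 2) = 0 := by decide
  rw [h, zero_mul]

/-- `v ↦ v.re` modulo `2`. -/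
private def O4_f0 (k : ℕ) : OO k →+* ZMod 2 :=
  evO (0 : ZMod 2) (by rw [O4_two_mul]; decide)

/-- `v ↦ v.re + v.im` modulo `2`. -/
private def O4_f1 (k : ℕ) : OO k →+* ZMod 2 :=
  evO (1 : ZMod 2) (by rw [O4_two_mul]; decide)

private lemma O4_ker0 : RingHom.ker (O4_f0 k) = pp k := by
  ext v
  rw [RingHom.mem_ker, O4_mem_pp, ← O4_zm]
  change ((v.re : ZMod 2) + (v.im : ZMod 2) * 0 = 0) ↔ _
  rw [mul_zero, add_zero]

private lemma O4_ker1 : RingHom.ker (O4_f1 k) = ppb k := by
  ext v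
  rw [RingHom.mem_ker, O4_mem_ppb, ← O4_zm]
  change ((v.re : ZMod 2) + (v.im : ZMod 2) * 1 = 0) ↔ _
  rw [mul_one]
  push_cast
  rfl

private lemma O4_sur (f : OO k →+* ZMod 2) : Function.Surjective f := by
  intro x
  fin_cases x
  · exact ⟨0, map_zero f⟩
  · exact ⟨1, map_one f⟩

private lemma O4_card (f : OO k →+* ZMod 2) : NI (RingHom.ker f) = 2 := by
  unfold NI
  rw [Nat.card_congr (RingHom.quotientKerEquivOfSurjective (O4_sur f)).toEquiv, Nat.card_eq_fintype_card,
    ZMod.card]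

set_option linter.unusedVariables false in
/-- **Module O4.** -/
theorem sO4 (h2 : S_O2) : S_O4 := by
  intro k _
  have m2 : (2 : OO k) ∈ pp k := by rw [O4_mem_pp, O4_re_two]
  have m2' : (2 : OO k) ∈ ppb k := by rw [O4_mem_ppb, O4_re_two, O4_im_two, add_zero]
  have mw : wI k ∈ pp k := by rw [O4_mem_pp]; exact dvd_zero _
  have mw' : 1 - wI k ∈ ppb k := by rw [O4_mem_ppb, O4_sub_w]; exact ⟨0, by norm_num⟩
  have h20 : (2 : OO k) ≠ 0 := by
    intro h
    have h1 := congrArg QuadraticAlgebra.re h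
    rw [O4_re_two, QuadraticAlgebra.re_zero] at h1
    exact absurd h1 (by norm_num)
  refine ⟨?_, ?_, ?_, ?_, ?_, ?_, ?_, ?_, ?_, O4_mem_pp, O4_mem_ppb⟩
  · apply le_antisymm
    · unfold pp ppb
      rw [Ideal.span_pair_mul_span_pair, Ideal.span_le]
      have hw : wI k * (1 - wI k) = 2 * (k : OO k) := by
        rw [O4_sub_w]
        apply ext'
        · rw [re_mul, re_mul, O4_re_two, O4_im_two, re_nat, im_nat]
          simp only [wI]
          ring
        · rw [im_mul, im_mul, O4_re_two, O4_im_two, re_nat, im_nat]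
          simp only [wI]
          ring
      rintro x (rfl | rfl | rfl | rfl)
      · exact Ideal.mem_span_singleton.2 (dvd_mul_right _ _)
      · exact Ideal.mem_span_singleton.2 (dvd_mul_right _ _)
      · exact Ideal.mem_span_singleton.2 (dvd_mul_left _ _)
      · rw [hw]
        exact Ideal.mem_span_singleton.2 (dvd_mul_right _ _)
    · rw [Ideal.span_singleton_le_iff_mem]
      have e : (2 : OO k) = wI k * 2 + 2 * (1 - wI k) := by ring
      rw [e]
      exact Ideal.add_mem _ (Ideal.mul_mem_mul mw m2') (Ideal.mul_mem_mul m2 mw')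
  · unfold cjI
    apply le_antisymm
    · rw [Ideal.span_le]
      rintro _ ⟨v, hv, rfl⟩
      have hv' := (O4_mem_pp v).1 hv
      change cjO v ∈ ppb k
      rw [O4_mem_ppb]
      simp only [cjO]
      rwa [add_assoc, add_neg_cancel, add_zero]
    · intro v hv
      have hv' := (O4_mem_ppb v).1 hv
      apply Ideal.subset_span
      refine ⟨cjO v, ?_, cjO_cjO v⟩
      change cjO v ∈ pp k
      rw [O4_mem_pp]
      exact hv'
  · rw [← O4_ker0]
    exact RingHom.ker_isPrime _
  · rw [← O4_ker1]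
    exact RingHom.ker_isPrime _
  · rw [← O4_ker0]
    exact O4_card _
  · rw [← O4_ker1]
    exact O4_card _
  · rw [Ideal.eq_top_iff_one]
    have e : (1 : OO k) = wI k + (1 - wI k) := by ring
    rw [e]
    exact Submodule.add_mem_sup mw mw'
  · intro h
    rw [h] at m2
    exact h20 ((Submodule.mem_bot _).1 m2)
  · intro h
    rw [h] at m2'
    exact h20 ((Submodule.mem_bot _).1 m2')

end Pool.Agent.DK
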