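import Pool.Agent.Lib.DK.O.Spec

/-!
# Theorem DK, module L1: `Lam b` is the lattice of a period pair
-/

set_option autoImplicit false

noncomputable section

namespace Pool.Agent.DK

open scoped nonZeroDivisors

variable {k : ℕ}

/-- Two elements of `O` with nonzero determinant have real independent images. -/
private theorem L1_indep [SqK k] {c₁ c₂ : OO k} {n : ℕ} (hn : 0 < n)
    (hd : c₁.re * c₂.im - c₂.re * c₁.im ≠ 0) :
    LinearIndependent ℝ ![toC c₁ / (n : ℂ), toC c₂ / (n : ℂ)] := by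
  rw [LinearIndependent.pair_iff]
  intro s t hst
  have hn' : (n : ℂ) ≠ 0 := by exact_mod_cast hn.ne'
  have hy := wC_im_pos (k := k)
  have h1 : (s : ℂ) * toC c₁ + (t : ℂ) * toC c₂ = 0 := by
    have h2 : (s : ℂ) * (toC c₁ / n) + (t : ℂ) * (toC c₂ / n) = 0 := by simpa using hst
    field_simp at h2
    simpa using h2
  rw [toC_apply, toC_apply] at h1
  have hi := congrArg Complex.im h1
  have hr := congrArg Complex.re h1
  simp only [Complex.add_im, Complex.add_re, Complex.mul_im, Complex.mul_re, Complex.ofReal_re,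
    Complex.ofReal_im, Complex.intCast_re, Complex.intCast_im, Complex.zero_re, Complex.zero_im,
    zero_mul, add_zero, zero_add, sub_zero, mul_zero] at hi hr
  have hD : ((c₁.re : ℝ) * c₂.im - c₂.re * c₁.im) ≠ 0 := by exact_mod_cast hd
  have hi' : s * c₁.im + t * c₂.im = 0 := by
    have : (s * c₁.im + t * c₂.im) * (wC k).im = 0 := by linear_combination hi
    rcases mul_eq_zero.1 this with h | h
    · exact h
    · exact absurd h hy.ne'
  have hr' : s * c₁.re + t * c₂.re = 0 := by linear_combination hr - (wC k).re * hi'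
  constructor
  · have : s * ((c₁.re : ℝ) * c₂.im - c₂.re * c₁.im) = 0 := by
      linear_combination (c₂.im : ℝ) * hr' - (c₂.re : ℝ) * hi'
    exact (mul_eq_zero.1 this).resolve_right hD
  · have : t * ((c₁.re : ℝ) * c₂.im - c₂.re * c₁.im) = 0 := by
      linear_combination (c₁.re : ℝ) * hi' - (c₁.im : ℝ) * hr'
    exact (mul_eq_zero.1 this).resolve_right hD

/-- A nonzero ideal has a basis of two elements with nonzero determinant. -/
private theorem L1_basis [SqK k] {c : Ideal (OO k)} (hc : c ≠ ⊥) :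
    ∃ c₁ c₂ : OO k, c₁.re * c₂.im - c₂.re * c₁.im ≠ 0 ∧
      ∀ v : OO k, v ∈ c ↔ ∃ x y : ℤ, v = (x : OO k) * c₁ + (y : OO k) * c₂ := by
  classical
  let B : Module.Basis (Fin 2) ℤ (OO k) := QuadraticAlgebra.basis _ _
  let C : Module.Basis (Fin 2) ℤ c := Ideal.selfBasis B c hc
  have hind : ∀ x y : ℤ, (x : OO k) * (C 0 : OO k) + (y : OO k) * (C 1 : OO k) = 0 →
      x = 0 ∧ y = 0 := by
    intro x y h
    have hli := C.linearIndependent
    rw [Fintype.linearIndependent_iff] at hli
    have h1 : x • C 0 + y • C 1 = 0 := by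
      apply Subtype.ext
      simpa [zsmul_eq_mul] using h
    have h2 := hli ![x, y] (by simpa [Fin.sum_univ_two] using h1)
    exact ⟨h2 0, h2 1⟩
  refine ⟨C 0, C 1, ?_, ?_⟩
  · intro hD
    obtain ⟨h1, h2⟩ := hind (C 1 : OO k).im (-(C 0 : OO k).im) (by
      apply ext'
      · rw [QuadraticAlgebra.re_add, re_mul, re_mul, re_int, re_int, im_int, im_int,
          QuadraticAlgebra.re_zero]
        linear_combination hD
      · rw [QuadraticAlgebra.im_add, im_mul, im_mul, re_int, re_int, im_int, im_int,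
          QuadraticAlgebra.im_zero]
        ring)
    obtain ⟨h3, h4⟩ := hind (C 1 : OO k).re (-(C 0 : OO k).re) (by
      have h2' : (C 0 : OO k).im = 0 := by linarith
      apply ext'
      · rw [QuadraticAlgebra.re_add, re_mul, re_mul, re_int, re_int, im_int, im_int,
          QuadraticAlgebra.re_zero]
        ring
      · rw [QuadraticAlgebra.im_add, im_mul, im_mul, re_int, re_int, im_int, im_int,
          QuadraticAlgebra.im_zero, h1, h2']
        ring)
    obtain ⟨h5, -⟩ := hind 1 0 (by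
      have h6 : (C 0 : OO k) = 0 := ext' (by simp; linarith) (by simp; linarith)
      rw [h6]
      simp)
    exact one_ne_zero h5
  · intro v
    constructor
    · intro hv
      refine ⟨C.repr ⟨v, hv⟩ 0, C.repr ⟨v, hv⟩ 1, ?_⟩
      have h := congrArg (fun t : c => (t : OO k)) (C.sum_repr ⟨v, hv⟩)
      simp only [Fin.sum_univ_two] at h
      rw [← zsmul_eq_mul, ← zsmul_eq_mul]
      exact h.symm
    · rintro ⟨x, y, rfl⟩
      exact c.add_mem (c.mul_mem_left _ (C 0).2) (c.mul_mem_left _ (C 1).2)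

theorem sL1 (h0 : S_L0) : S_L1 := by
  intro k _ b hb
  have hex : ∃ L : PeriodPair, (L.lattice : Set ℂ) = Lam b := by
    obtain ⟨⟨n, hn, hnb⟩, h1, h2⟩ := h0 k b hb
    obtain ⟨c, hc, hbc⟩ := h1 n hn hnb
    have h3 := h2 n c hn hbc
    obtain ⟨c₁, c₂, hD, hcc⟩ := L1_basis hc
    refine ⟨⟨toC c₁ / n, toC c₂ / n, L1_indep hn hD⟩, ?_⟩
    ext z
    rw [SetLike.mem_coe, PeriodPair.mem_lattice, h3 z]
    constructor
    · rintro ⟨x, y, rfl⟩
      refine ⟨(x : OO k) * c₁ + (y : OO k) * c₂, (hcc _).2 ⟨x, y, rfl⟩, ?_⟩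
      rw [toC_add, toC_mul, toC_mul, toC_int, toC_int]
      ring
    · rintro ⟨v, hv, rfl⟩
      obtain ⟨x, y, rfl⟩ := (hcc v).1 hv
      refine ⟨x, y, ?_⟩
      rw [toC_add, toC_mul, toC_mul, toC_int, toC_int]
      ring
  unfold LP
  rw [dif_pos hex]
  exact hex.choose_spec

end Pool.Agent.DK
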