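import Pool.Agent.Lib.DK.O.Spec

/-!
# Theorem DK, module L3: `Lam (a b) / Lam b` is isomorphic to `O / a`
-/

set_option autoImplicit false

open scoped Pointwise nonZeroDivisors

noncomputable section

namespace Pool.Agent.DK

open Pool.Agent.MuZ Pool.Agent.FW NumberField IsDedekindDomain
open Pool.Agent.DI (io ofC io_inj exists_io io_ofC ofC_io VP MP UP TP ex sqr sqr_sq kap)

variable {k : ℕ}

/-- Membership of `toC v / n`. -/
private theorem L3_mem [SqK k] (h0 : S_L0) {I c : Ideal (OO k)} (hI : I ≠ ⊥) {n : ℕ} (hn : 0 < n)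
    (hc : I * c = sp (n : OO k)) (v : OO k) : toC v / n ∈ Lam I ↔ v ∈ c := by
  have hn' : (n : ℂ) ≠ 0 := by exact_mod_cast hn.ne'
  rw [(h0 k I hI).2.2 n c hn hc]
  constructor
  · rintro ⟨u, hu, h⟩
    have h1 : toC v = toC u := by
      have h2 := congrArg (fun x : ℂ => x * n) h
      simpa [div_mul_cancel₀, hn'] using h2
    rw [toC_inj h1]
    exact hu
  · intro h
    exact ⟨v, h, rfl⟩

/-- The second claim. -/
private theorem L3_two [SqK k] (h0 : S_L0) {a b : Ideal (OO k)} (ha : a ≠ ⊥) (hb : b ≠ ⊥) {g : ℂ}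
    (hg : g ∈ Lam (a * b)) (hg' : ∀ a' : Ideal (OO k), a < a' → g ∉ Lam (a' * b)) :
    (∀ v : OO k, toC v * g ∈ Lam b ↔ v ∈ a) ∧ ∀ z ∈ Lam (a * b), ∃ v : OO k, z - toC v * g ∈ Lam b := by
  have hab : a * b ≠ ⊥ := mul_ne_zero ha hb
  obtain ⟨n, hn, hnI⟩ := (h0 k (a * b) hab).1
  obtain ⟨c, hc0, hc⟩ := (h0 k (a * b) hab).2.1 n hn hnI
  have hbc : b * (a * c) = sp (n : OO k) := by rw [← hc]; ring
  obtain ⟨γ, hγ, rfl⟩ := ((h0 k (a * b) hab).2.2 n c hn hc g).1 hg
  -- the ideal `a c + (γ)` is `c`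
  have hle : a * c ⊔ sp γ ≤ c :=
    sup_le Ideal.mul_le_right ((Ideal.span_singleton_le_iff_mem c).2 hγ)
  have hJ : a * c ⊔ sp γ = c := by
    obtain ⟨d, hd⟩ := Ideal.dvd_iff_le.2 hle
    have h1 : d ∣ a := by
      have h2 : c * d ∣ c * a := by
        rw [← hd, mul_comm c a]
        exact Ideal.dvd_iff_le.2 le_sup_left
      exact (mul_dvd_mul_iff_left hc0).1 h2
    obtain ⟨a'', ha''⟩ := h1
    have h3 : γ ∈ d * c := by
      have h4 : γ ∈ a * c ⊔ sp γ := (le_sup_right : sp γ ≤ _) (Ideal.mem_span_singleton_self γ)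
      rwa [hd, mul_comm c d] at h4
    have h4 : a'' ≠ ⊥ := by
      rintro rfl
      exact ha (by rw [ha'', Ideal.mul_bot])
    have h5 : (toC γ / n : ℂ) ∈ Lam (a'' * b) := by
      refine (L3_mem h0 (mul_ne_zero h4 hb) hn (c := d * c) ?_ γ).2 h3
      rw [← hc, ha'']
      ring
    have h6 : a ≤ a'' := by
      rw [ha'']
      exact Ideal.mul_le_right
    have h7 : a = a'' := by
      by_contra hne
      exact hg' a'' (lt_of_le_of_ne h6 hne) h5
    have h8 : d = 1 := by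
      have h9 : d * a'' = 1 * a'' := by rw [← ha'', one_mul, h7]
      exact mul_right_cancel₀ h4 h9
    rw [hd, h8, mul_one]
  have hmul : ∀ v : OO k, toC v * (toC γ / n) = toC (v * γ) / n := by
    intro v
    rw [toC_mul]
    ring
  refine ⟨fun v => ?_, ?_⟩
  · rw [hmul, L3_mem h0 hb hn hbc]
    constructor
    · intro h
      have h1 : sp v * c ≤ a * c := by
        calc sp v * c = sp v * (a * c ⊔ sp γ) := by rw [hJ]
          _ = sp v * (a * c) ⊔ sp v * sp γ := Ideal.mul_sup _ _ _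
          _ ≤ a * c := by
            refine sup_le Ideal.mul_le_right ?_
            rw [Ideal.span_singleton_mul_span_singleton]
            exact (Ideal.span_singleton_le_iff_mem _).2 h
      have h2 : a ∣ sp v := by
        have h3 := Ideal.dvd_iff_le.2 h1
        exact (mul_dvd_mul_iff_right hc0).1 h3
      exact (Ideal.dvd_iff_le.1 h2) (Ideal.mem_span_singleton_self v)
    · intro h
      exact Ideal.mul_mem_mul h hγ
  · intro z hz
    obtain ⟨u, hu, rfl⟩ := ((h0 k (a * b) hab).2.2 n c hn hc z).1 hz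
    rw [← hJ] at hu
    obtain ⟨x, hx, y, hy, rfl⟩ := Submodule.mem_sup.1 hu
    obtain ⟨v, rfl⟩ := Ideal.mem_span_singleton'.1 hy
    refine ⟨v, ?_⟩
    have h1 : (toC (x + v * γ) / n - toC v * (toC γ / n) : ℂ) = toC x / n := by
      rw [hmul, toC_add]
      ring
    rw [h1, L3_mem h0 hb hn hbc]
    exact hx

/-- The first claim. -/
private theorem L3_one [SqK k] (h0 : S_L0) {a b : Ideal (OO k)} (ha : a ≠ ⊥) (hb : b ≠ ⊥) :
    ∃ z ∈ Lam (a * b), ∀ a' : Ideal (OO k), a < a' → z ∉ Lam (a' * b) := by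
  have hab : a * b ≠ ⊥ := mul_ne_zero ha hb
  obtain ⟨n, hn, hnI⟩ := (h0 k (a * b) hab).1
  obtain ⟨c, hc0, hc⟩ := (h0 k (a * b) hab).2.1 n hn hnI
  obtain ⟨γ, hγ⟩ := IsDedekindDomain.exists_sup_span_eq (I := a * c) (J := c) Ideal.mul_le_right
    (mul_ne_zero ha hc0)
  have hγc : γ ∈ c := by
    have h1 : γ ∈ a * c ⊔ sp γ := (le_sup_right : sp γ ≤ _) (Ideal.mem_span_singleton_self γ)
    rwa [hγ] at h1
  refine ⟨toC γ / n, (L3_mem h0 hab hn hc γ).2 hγc, ?_⟩
  intro a' haa' hz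
  obtain ⟨a'', ha''⟩ := Ideal.dvd_iff_le.2 haa'.le
  have h1 : a' ≠ ⊥ := by
    rintro rfl
    exact ha (by rw [ha'', Ideal.bot_mul])
  have h2 : γ ∈ a'' * c := by
    refine (L3_mem h0 (mul_ne_zero h1 hb) hn (c := a'' * c) ?_ γ).1 hz
    rw [← hc, ha'']
    ring
  have h3 : c ≤ a'' * c := by
    have h4 : a * c ⊔ sp γ ≤ a'' * c := by
      refine sup_le ?_ ((Ideal.span_singleton_le_iff_mem _).2 h2)
      rw [ha'', mul_assoc]
      exact Ideal.mul_le_right
    rwa [hγ] at h4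
  have h5 : a'' * c = 1 * c := by
    rw [one_mul]
    exact le_antisymm Ideal.mul_le_right h3
  have h6 : a'' = 1 := mul_right_cancel₀ hc0 h5
  rw [ha'', h6, mul_one] at haa'
  exact lt_irrefl _ haa'

theorem sL3 (h0 : S_L0) : S_L3 := by
  intro k _ a b ha hb
  refine ⟨L3_one h0 ha hb, fun g hg hg' => L3_two h0 ha hb hg hg', ?_⟩
  obtain ⟨g, hg, hg'⟩ := L3_one h0 ha hb
  obtain ⟨h1, h2⟩ := L3_two h0 ha hb hg hg'
  have hfin : Finite (OO k ⧸ a) := Ring.HasFiniteQuotients.finiteQuotient ha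
  let _ : Fintype (OO k ⧸ a) := Fintype.ofFinite _
  have hsub : ∀ v u : OO k, toC v * g - toC u * g ∈ Lam b ↔ v - u ∈ a := by
    intro v u
    rw [← sub_mul, ← toC_sub]
    exact h1 (v - u)
  have hout : ∀ q : OO k ⧸ a, Ideal.Quotient.mk a (Quotient.out q) = q := fun q =>
    Quotient.out_eq' q
  have hinj : Function.Injective (fun q : OO k ⧸ a => toC (Quotient.out q) * g) := by
    intro q q' h
    have h3 : toC (Quotient.out q) * g - toC (Quotient.out q') * g ∈ Lam b := by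
      have h4 : toC (Quotient.out q) * g = toC (Quotient.out q') * g := h
      rw [h4, sub_self]
      exact lam_zero b
    have h5 := (hsub _ _).1 h3
    rw [← hout q, ← hout q']
    exact Ideal.Quotient.eq.2 h5
  classical
  refine ⟨Finset.univ.image (fun q : OO k ⧸ a => toC (Quotient.out q) * g), ⟨?_, ?_, ?_⟩, ?_⟩
  · intro u hu
    obtain ⟨q, -, rfl⟩ := Finset.mem_image.1 hu
    exact lam_mul _ hg
  · intro z hz
    obtain ⟨v, hv⟩ := h2 z hz
    refine ⟨toC (Quotient.out (Ideal.Quotient.mk a v)) * g,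
      Finset.mem_image.2 ⟨Ideal.Quotient.mk a v, Finset.mem_univ _, rfl⟩, ?_⟩
    have h3 : toC v * g - toC (Quotient.out (Ideal.Quotient.mk a v)) * g ∈ Lam b := by
      rw [hsub]
      exact Ideal.Quotient.eq.1 (hout (Ideal.Quotient.mk a v)).symm
    have h4 := lam_add hv h3
    rwa [sub_add_sub_cancel] at h4
  · intro u hu u' hu' h
    obtain ⟨q, -, rfl⟩ := Finset.mem_image.1 hu
    obtain ⟨q', -, rfl⟩ := Finset.mem_image.1 hu'
    have h3 := (hsub _ _).1 h
    have h4 : q = q' := by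
      rw [← hout q, ← hout q']
      exact Ideal.Quotient.eq.2 h3
    rw [h4]
  · rw [Finset.card_image_of_injective _ hinj, Finset.card_univ]
    unfold NI
    rw [Nat.card_eq_fintype_card]

end Pool.Agent.DK
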