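import Pool.Agent.Lib.DK.O.Spec

/-!
# Theorem DK, module L5: torsion prime to `a`
-/

set_option autoImplicit false

open scoped Pointwise nonZeroDivisors

noncomputable section

namespace Pool.Agent.DK

open Pool.Agent.MuZ Pool.Agent.FW NumberField IsDedekindDomain

/-- `1 = v + N u` with `v ∈ a`, in the form of a decomposition of complex numbers. -/
private theorem L5_dec {k : ℕ} [SqK k] {a : Ideal (OO k)} {N : ℕ} (h : PrI a N) :
    ∃ v ∈ a, ∃ u : OO k, ∀ z : ℂ, z = toC v * z + toC u * ((N : ℂ) * z) := by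
  have h1 : (1 : OO k) ∈ a ⊔ Ideal.span {(N : OO k)} := by
    rw [show a ⊔ Ideal.span {(N : OO k)} = ⊤ from h]
    exact Submodule.mem_top
  obtain ⟨v, hv, w, hw, hvw⟩ := Submodule.mem_sup.1 h1
  obtain ⟨u, rfl⟩ := Ideal.mem_span_singleton'.1 hw
  refine ⟨v, hv, u, fun z => ?_⟩
  have h2 : toC v + toC u * (N : ℂ) = 1 := by
    rw [← toC_nat (k := k), ← toC_mul, ← toC_add, hvw, toC_one]
  calc z = 1 * z := (one_mul z).symm
    _ = (toC v + toC u * (N : ℂ)) * z := by rw [h2]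
    _ = toC v * z + toC u * ((N : ℂ) * z) := by ring

theorem sL5 : S_L5 := by
  intro k _ a b N _ _ _ hN
  obtain ⟨v, hv, u, hd⟩ := L5_dec hN
  refine ⟨fun z hz1 hz2 => ?_, fun z hz => ⟨toC v * z, ?_, ?_⟩⟩
  · rw [hd z]
    exact lam_add (lam_prod.1 hz2 v hv) (lam_mul u hz1)
  · rw [show (N : ℂ) * (toC v * z) = toC v * ((N : ℂ) * z) by ring]
    exact lam_prod.1 hz v hv
  · have h1 : z - toC v * z = toC u * ((N : ℂ) * z) := by
      nth_rewrite 1 [hd z]
      ring
    rw [h1]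
    exact lam_mul u hz

end Pool.Agent.DK
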