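import Pool.Agent.Lib.DK.O.Spec

/-!
# Theorem DK, module L6: the points `T`, `S`, `t` for the lattices `Lam (a b)`
-/

set_option autoImplicit false

open scoped Pointwise nonZeroDivisors

noncomputable section

namespace Pool.Agent.DK

open Pool.Agent.MuZ Pool.Agent.FW NumberField IsDedekindDomain

variable {k : ℕ}

private theorem L6_w (k : ℕ) : wI k ∈ pp k := Ideal.subset_span (by simp)

private theorem L6_w' (k : ℕ) : 1 - wI k ∈ ppb k := Ideal.subset_span (by simp)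

private theorem L6_2 (k : ℕ) : (2 : OO k) ∈ ppb k := Ideal.subset_span (by simp)

/-- `Lam (pp b)` and `Lam (ppb b)` meet in `Lam b`. -/
private theorem L6_inter [SqK k] {b : Ideal (OO k)} {z : ℂ} (h : z ∈ Lam (pp k * b))
    (h' : z ∈ Lam (ppb k * b)) : z ∈ Lam b := by
  have e : z = toC (wI k) * z + toC (1 - wI k) * z := by
    rw [toC_sub, toC_one]
    ring
  rw [e]
  exact lam_add (lam_prod.1 h _ (L6_w k)) (lam_prod.1 h' _ (L6_w' k))

/-- `Lam (pp b)` and `Lam (ppb ^ 2 b)` meet in `Lam b`. -/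
private theorem L6_inter2 [SqK k] {b : Ideal (OO k)} {z : ℂ} (h : z ∈ Lam (pp k * b))
    (h' : z ∈ Lam (ppb k ^ 2 * b)) : z ∈ Lam b := by
  have e : z = toC ((2 - wI k) * wI k) * z + toC ((1 - wI k) ^ 2) * z := by
    rw [← add_mul, ← toC_add]
    have : (2 - wI k) * wI k + (1 - wI k) ^ 2 = (1 : OO k) := by ring
    rw [this, toC_one, one_mul]
  rw [e]
  exact lam_add (lam_prod.1 h _ ((pp k).mul_mem_left _ (L6_w k)))
    (lam_prod.1 h' _ (Ideal.pow_mem_pow (L6_w' k) 2))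

/-- The generators of order `ppb ^ 2`. -/
private theorem L6_t [SqK k] (l6 : S_L6a) {b : Ideal (OO k)} (hb : b ≠ ⊥) {z : ℂ}
    (h : z ∈ Lam (ppb k ^ 2 * b)) (h2 : 2 * z ∉ Lam b) :
    ptt b - z ∈ Lam b ∨ ptt b + z ∈ Lam b := by
  obtain ⟨⟨hT, hT', _⟩, ⟨hS, hS', hS''⟩, ⟨_, _, _, _, hq⟩, ht, ht', _, ht'''⟩ := l6 k b hb
  have h3 : 2 * z ∈ Lam (ppb k * b) := by
    apply lam_prod.2
    intro v hv
    have h4 := lam_prod.1 h (v * 2) (by
      rw [sq]
      exact Ideal.mul_mem_mul hv (L6_2 k))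
    rw [toC_mul, toC_two] at h4
    rwa [← mul_assoc]
  have h4 : 2 * z - ptS b ∈ Lam b := (hS'' _ h3).resolve_left h2
  have h5 : 2 * (z - ptt b) ∈ Lam b := by
    have e : 2 * (z - ptt b) = (2 * z - ptS b) - (2 * ptt b - ptS b) := by ring
    rw [e]
    exact lam_sub h4 ht
  have hx : z - ptt b ∈ Lam (ppb k ^ 2 * b) := lam_sub h ht'
  have hS2 : ptS b ∈ Lam (ppb k ^ 2 * b) := by
    rw [sq, mul_assoc]
    exact lam_mono hS
  rcases hq _ h5 with h6 | h6 | h6 | h6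
  · left
    rw [← neg_sub]
    exact lam_neg h6
  · exfalso
    apply hT'
    apply L6_inter2 hT
    have e : ptT b = (z - ptt b) - (z - ptt b - ptT b) := by ring
    rw [e]
    exact lam_sub hx (lam_mono h6)
  · right
    have e : ptt b + z = (z - ptt b - ptS b) + (ptt b + ptS b + ptt b) := by ring
    rw [e]
    exact lam_add h6 ht'''
  · exfalso
    apply hT'
    apply L6_inter2 hT
    have e : ptT b = ((z - ptt b) - ptS b) - (z - ptt b - (ptS b + ptT b)) := by ring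
    rw [e]
    exact lam_sub (lam_sub hx hS2) (lam_mono h6)

/-- The point of order `pp`. -/
private theorem L6_T [SqK k] (l6 : S_L6a) {b : Ideal (OO k)} (hb : b ≠ ⊥) {z : ℂ}
    (h : z ∈ Lam (pp k * b)) (h2 : z ∉ Lam b) : z - ptT b ∈ Lam b :=
  ((l6 k b hb).1.2.2 z h).resolve_left h2

/-- The point of order `ppb`. -/
private theorem L6_S [SqK k] (l6 : S_L6a) {b : Ideal (OO k)} (hb : b ≠ ⊥) {z : ℂ}
    (h : z ∈ Lam (ppb k * b)) (h2 : z ∉ Lam b) : z - ptS b ∈ Lam b :=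
  ((l6 k b hb).2.1.2.2 z h).resolve_left h2

private theorem L6_flip {b : Ideal (OO k)} {z z' : ℂ} (h : z - z' ∈ Lam b) : z' - z ∈ Lam b := by
  rw [← neg_sub]
  exact lam_neg h

/-- Module L6. -/
theorem sL6 (h3 : S_O3) (h4 : S_O4) (l2 : S_L2) (_l3 : S_L3) (l5 : S_L5) (l6 : S_L6a) : S_L6 := by
  intro k _ b hb
  obtain ⟨_, hpc, _, _, _, _, _, hp0, hp0', _, _⟩ := h4 k
  obtain ⟨c1, c2, c3, _, _, _⟩ := h3 k
  obtain ⟨A, B, C, D⟩ := l6 k b hb
  have hpb : pp k * b ≠ ⊥ := mul_ne_zero hp0 hb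
  have hpb' : ppb k * b ≠ ⊥ := mul_ne_zero hp0' hb
  have hcb : cjI b ≠ ⊥ := by
    intro h
    obtain ⟨v, hv, hv0⟩ := Submodule.exists_mem_ne_zero_of_ne_bot hb
    have h1 : cjO v ∈ cjI b := (c1 b (cjO v)).2 (by rw [cjO_cjO]; exact hv)
    rw [h] at h1
    have h2 : cjO v = 0 := (Submodule.mem_bot _).1 h1
    apply hv0
    rw [← cjO_cjO v, h2, cjO_zero]
  have hTn : ptT b ∉ Lam (ppb k * b) := fun h => A.2.1 (L6_inter A.1 h)
  have hSn : ptS b ∉ Lam (pp k * b) := fun h => B.2.1 (L6_inter h B.1)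
  refine ⟨A, B, C, D, ⟨?_, ?_, ?_, ?_⟩, ?_, ?_, ?_⟩
  · apply L6_flip
    apply L6_T l6 hpb' _ hTn
    rw [mul_left_comm]
    exact lam_mono A.1
  · apply L6_flip
    apply L6_S l6 hpb _ hSn
    rw [mul_left_comm]
    exact lam_mono B.1
  · apply L6_flip
    apply L6_S l6 hpb' _ D.2.2.1
    have h := D.2.1
    rw [sq, mul_assoc] at h
    exact h
  · apply L6_t l6 hpb
    · rw [mul_left_comm]
      exact lam_mono D.2.1
    · intro h
      apply hSn
      have e : ptS b = 2 * ptt b - (2 * ptt b - ptS b) := by ring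
      rw [e]
      exact lam_sub h (lam_mono D.1)
  · intro a ha ha2
    have hab : a * b ≠ ⊥ := mul_ne_zero ha hb
    have l5' := (l5 k a b 2 ha hb two_pos ha2).1
    have hn : ∀ z : ℂ, 2 * z ∈ Lam b → z ∉ Lam b → z ∉ Lam (a * b) := fun z h1 h2 h =>
      h2 (l5' z (by exact_mod_cast h1) h)
    refine ⟨?_, ?_, ?_⟩
    · apply L6_flip
      apply L6_T l6 hab _ (hn _ C.1 A.2.1)
      rw [mul_left_comm]
      exact lam_mono A.1
    · apply L6_flip
      apply L6_S l6 hab _ (hn _ C.2.1 B.2.1)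
      rw [mul_left_comm]
      exact lam_mono B.1
    · apply L6_t l6 hab
      · rw [mul_left_comm]
        exact lam_mono D.2.1
      · intro h
        apply hn _ C.2.1 B.2.1
        have e : ptS b = 2 * ptt b - (2 * ptt b - ptS b) := by ring
        rw [e]
        exact lam_sub h (lam_mono D.1)
  · have hl := (l2 k).2.2.2.2.2.2.1
    apply L6_S l6 hcb
    · rw [← hpc, ← c2]
      rw [hl (pp k * b) _ hpb, Complex.conj_conj]
      exact A.1
    · rw [hl b _ hb, Complex.conj_conj]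
      exact A.2.1
  · have hl := (l2 k).2.2.2.2.2.2.1
    have hpc' : cjI (ppb k) = pp k := by rw [← hpc, (c3 (pp k)).1]
    apply L6_T l6 hcb
    · rw [← hpc', ← c2]
      rw [hl (ppb k * b) _ hpb', Complex.conj_conj]
      exact B.1
    · rw [hl b _ hb, Complex.conj_conj]
      exact B.2.1

end Pool.Agent.DK
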