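import Pool.Agent.Lib.DK.O.Spec

/-!
# Theorem DK, module `L6a`: the points `T`, `S`, `t`
-/

set_option autoImplicit false

open scoped Pointwise nonZeroDivisors

noncomputable section

namespace Pool.Agent.DK

open Pool.Agent.MuZ Pool.Agent.FW NumberField IsDedekindDomain

private theorem L6a_gen (h3 : S_L3) {k : ℕ} [SqK k] {m b : Ideal (OO k)} (hm : m ≠ ⊥) (hb : b ≠ ⊥) :
    gen m b ∈ Lam (m * b) ∧ ∀ m' : Ideal (OO k), m < m' → gen m b ∉ Lam (m' * b) := by
  have h := (h3 k m b hm hb).1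
  unfold gen
  rw [dif_pos h]
  exact h.choose_spec

private theorem L6a_not (h3 : S_L3) {k : ℕ} [SqK k] {m b : Ideal (OO k)} (hm : m ≠ ⊥) (hb : b ≠ ⊥)
    (ht : m ≠ ⊤) : gen m b ∉ Lam b := by
  have h := (L6a_gen h3 hm hb).2 ⊤ (lt_top_iff_ne_top.2 ht)
  rwa [Ideal.top_mul] at h

/-- The classes modulo a prime with two classes. -/
private theorem L6a_two (h3 : S_L3) {k : ℕ} [SqK k] {m b : Ideal (OO k)} (hm : m ≠ ⊥) (hb : b ≠ ⊥)
    (h2 : ∀ v : OO k, v ∈ m ∨ v - 1 ∈ m) :
    ∀ z ∈ Lam (m * b), z ∈ Lam b ∨ z - gen m b ∈ Lam b := by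
  intro z hz
  have hg := L6a_gen h3 hm hb
  obtain ⟨_, hB⟩ := (h3 k m b hm hb).2.1 (gen m b) hg.1 hg.2
  obtain ⟨v, hv⟩ := hB z hz
  rcases h2 v with h | h
  · left
    have h' := lam_prod.1 hg.1 v h
    have e : z = (z - toC v * gen m b) + toC v * gen m b := by ring
    rw [e]
    exact lam_add hv h'
  · right
    have h' := lam_prod.1 hg.1 _ h
    rw [toC_sub, toC_one] at h'
    have e : z - gen m b = (z - toC v * gen m b) + (toC v - 1) * gen m b := by ring
    rw [e]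
    exact lam_add hv h'

private theorem L6a_w (k : ℕ) : wI k ∈ pp k := Ideal.subset_span (by simp)

private theorem L6a_w' (k : ℕ) : 1 - wI k ∈ ppb k := Ideal.subset_span (by simp)

private theorem L6a_2p (k : ℕ) : (2 : OO k) ∈ pp k := Ideal.subset_span (by simp)

private theorem L6a_2p' (k : ℕ) : (2 : OO k) ∈ ppb k := Ideal.subset_span (by simp)

private theorem L6a_split {k : ℕ} (z : ℂ) : z = toC (wI k) * z + toC (1 - wI k) * z := by
  rw [toC_sub, toC_one]
  ring

private theorem L6a_inter {k : ℕ} [SqK k] {b : Ideal (OO k)} {z : ℂ} (h : z ∈ Lam (pp k * b))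
    (h' : z ∈ Lam (ppb k * b)) : z ∈ Lam b := by
  rw [L6a_split (k := k) z]
  exact lam_add (lam_prod.1 h _ (L6a_w k)) (lam_prod.1 h' _ (L6a_w' k))

private theorem L6a_dbl {k : ℕ} [SqK k] {m b : Ideal (OO k)} (h2 : (2 : OO k) ∈ m) {z : ℂ}
    (h : z ∈ Lam (m * b)) : 2 * z ∈ Lam b := by
  have h' := lam_prod.1 h 2 h2
  rwa [toC_two] at h'

theorem sL6a (h4 : S_O4) (h3 : S_L3) : S_L6a := by
  intro k _ b hb
  obtain ⟨hpp, _, hP, hP', _, _, hsup, hne, hne', hmem, hmem'⟩ := h4 k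
  have hT := L6a_gen h3 hne hb
  have hS := L6a_gen h3 hne' hb
  have hTn : ptT b ∉ Lam b := L6a_not h3 hne hb hP.ne_top
  have hSn : ptS b ∉ Lam b := L6a_not h3 hne' hb hP'.ne_top
  have hT2 : ∀ z ∈ Lam (pp k * b), z ∈ Lam b ∨ z - ptT b ∈ Lam b := by
    refine L6a_two h3 hne hb fun v => ?_
    rw [hmem, hmem, QuadraticAlgebra.re_sub, re_one]
    omega
  have hS2 : ∀ z ∈ Lam (ppb k * b), z ∈ Lam b ∨ z - ptS b ∈ Lam b := by
    refine L6a_two h3 hne' hb fun v => ?_
    rw [hmem', hmem', QuadraticAlgebra.re_sub, QuadraticAlgebra.im_sub, re_one, im_one]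
    omega
  have hTm : ptT b ∈ Lam (pp k * b) := hT.1
  have hSm : ptS b ∈ Lam (ppb k * b) := hS.1
  have hTd : 2 * ptT b ∈ Lam b := L6a_dbl (L6a_2p k) hTm
  have hSd : 2 * ptS b ∈ Lam b := L6a_dbl (L6a_2p' k) hSm
  -- `2` is not in `ppb ^ 2`
  have h22 : (2 : OO k) ∉ ppb k ^ 2 := by
    intro h
    have h1 : sp (2 : OO k) ≤ ppb k ^ 2 := (Ideal.span_singleton_le_iff_mem _).2 h
    rw [← hpp, sq] at h1
    have h5 : ppb k * ppb k ∣ pp k * ppb k := Ideal.dvd_iff_le.2 h1
    have h6 : ppb k ∣ pp k := (mul_dvd_mul_iff_right (a := ppb k) hne').1 h5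
    have h7 : pp k ≤ ppb k := Ideal.le_of_dvd h6
    apply hP'.ne_top
    rw [← hsup]
    exact (sup_eq_right.2 h7).symm
  have hq0 : ppb k ^ 2 ≠ ⊥ := pow_ne_zero 2 hne'
  have hqlt : ppb k ^ 2 < ppb k := by
    refine lt_of_le_of_ne (Ideal.pow_le_self two_ne_zero) fun h => h22 ?_
    rw [h]
    exact L6a_2p' k
  have ht := L6a_gen h3 hq0 hb
  have htm : ptt b ∈ Lam (ppb k ^ 2 * b) := ht.1
  have htn : ptt b ∉ Lam (ppb k * b) := ht.2 _ hqlt
  have ht2 : 2 * ptt b - ptS b ∈ Lam b := by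
    have h5 : 2 * ptt b ∈ Lam (ppb k * b) := by
      rw [lam_prod]
      intro v hv
      have h6 : v * 2 ∈ ppb k ^ 2 := by
        rw [sq]
        exact Ideal.mul_mem_mul hv (L6a_2p' k)
      have h7 := lam_prod.1 htm _ h6
      rw [toC_mul, toC_two] at h7
      rwa [← mul_assoc]
    rcases hS2 _ h5 with h | h
    · exfalso
      have h8 := ((h3 k (ppb k ^ 2) b hq0 hb).2.1 (gen (ppb k ^ 2) b) ht.1 ht.2).1 2
      rw [toC_two] at h8
      exact h22 (h8.1 h)
    · exact h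
  refine ⟨⟨hTm, hTn, hT2⟩, ⟨hSm, hSn, hS2⟩, ⟨hTd, hSd, ?_, ?_, ?_⟩, ht2, htm, htn, ?_⟩
  · intro h
    apply hSn
    refine L6a_inter ?_ hSm
    have e : ptS b = (ptS b + ptT b) - ptT b := by ring
    rw [e]
    exact lam_sub (lam_mono h) hTm
  · intro h
    apply hSn
    refine L6a_inter ?_ hSm
    have e : ptS b = (ptS b - ptT b) + ptT b := by ring
    rw [e]
    exact lam_add (lam_mono h) hTm
  · intro z hz
    have h5 : z ∈ Lam (sp (2 : OO k) * b) := by
      rw [lam_sp, toC_two]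
      exact hz
    have h6 : z ∈ Lam (pp k * (ppb k * b)) := by
      rwa [← hpp, mul_assoc] at h5
    have h7 : z ∈ Lam (ppb k * (pp k * b)) := by
      rwa [← hpp, mul_comm (pp k) (ppb k), mul_assoc] at h5
    have hw : toC (wI k) * z ∈ Lam (ppb k * b) := lam_prod.1 h6 _ (L6a_w k)
    have hw' : toC (1 - wI k) * z ∈ Lam (pp k * b) := lam_prod.1 h7 _ (L6a_w' k)
    have e := L6a_split (k := k) z
    rcases hS2 _ hw with h | h <;> rcases hT2 _ hw' with h' | h'
    · left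
      rw [e]
      exact lam_add h h'
    · right; left
      have e1 : z - ptT b = toC (wI k) * z + (toC (1 - wI k) * z - ptT b) := by
        linear_combination e
      rw [e1]
      exact lam_add h h'
    · right; right; left
      have e1 : z - ptS b = (toC (wI k) * z - ptS b) + toC (1 - wI k) * z := by
        linear_combination e
      rw [e1]
      exact lam_add h h'
    · right; right; right
      have e1 : z - (ptS b + ptT b) = (toC (wI k) * z - ptS b) + (toC (1 - wI k) * z - ptT b) := by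
        linear_combination e
      rw [e1]
      exact lam_add h h'
  · have e : ptt b + ptS b + ptt b = (2 * ptt b - ptS b) + 2 * ptS b := by ring
    rw [e]
    exact lam_add ht2 hSd

end Pool.Agent.DK
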