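import Pool.Agent.Lib.DK.O.Spec

/-!
# Theorem DK, module O5: a power of every ideal of `O` is principal
-/

set_option autoImplicit false

open scoped Pointwise nonZeroDivisors

noncomputable section

namespace Pool.Agent.DK

open Pool.Agent.MuZ Pool.Agent.FW NumberField IsDedekindDomain

variable {k : ℕ}

/-- The class group of `O` is finite. -/
theorem O5_finite (k : ℕ) [SqK k] : Finite (ClassGroup (OO k)) := by
  classical
  have hi : Algebra.IsAlgebraic ℤ (OO k) := by
    have : Algebra.IsIntegral ℤ (OO k) := inferInstance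
    infer_instance
  exact @Finite.of_fintype _ (ClassGroup.fintypeOfAdmissibleOfAlgebraic
    (QuadraticAlgebra.basis (-(2 * (k : ℤ))) 1) AbsoluteValue.absIsAdmissible)

/-- Module O5: a power of every ideal is principal. -/
theorem sO5 : S_O5 := by
  intro k _ a ha
  have hfin := O5_finite k
  have ha' : a ∈ (Ideal (OO k))⁰ := mem_nonZeroDivisors_of_ne_zero ha
  refine ⟨Nat.card (ClassGroup (OO k)), ?_⟩
  have h0 : 0 < Nat.card (ClassGroup (OO k)) := Nat.card_pos
  have h1 : (ClassGroup.mk0 ⟨a, ha'⟩) ^ Nat.card (ClassGroup (OO k)) = 1 := pow_card_eq_one'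
  rw [← map_pow, ClassGroup.mk0_eq_one_iff] at h1
  obtain ⟨α, hα⟩ := h1.principal
  have h2 : a ^ Nat.card (ClassGroup (OO k)) = sp α := hα
  refine ⟨α, h0, ?_, h2⟩
  rintro rfl
  have h3 : a ^ Nat.card (ClassGroup (OO k)) = ⊥ := by
    rw [h2]
    exact Ideal.span_singleton_eq_bot.2 rfl
  exact ha (eq_zero_of_pow_eq_zero h3)

end Pool.Agent.DK
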