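import Pool.Agent.Lib.DK.O.Spec

/-!
# Theorem DK, part 0, module O8b: primitive elements are products of primes of degree one
-/

set_option autoImplicit false

noncomputable section

namespace Pool.Agent.DK

variable {k : ℕ}

private theorem O8b_NI [SqK k] (a : Ideal (OO k)) : NI a = Ideal.absNorm a := rfl

/-- A prime ideal which contains a positive integer contains a prime number. -/
theorem O8b_exists_prime (P : Ideal (OO k)) (hP : P.IsPrime) (n : ℕ) :
    n ≠ 0 → (n : OO k) ∈ P → ∃ p : ℕ, p.Prime ∧ (p : OO k) ∈ P := by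
  induction n using induction_on_primes with
  | zero => exact fun h => absurd rfl h
  | one =>
    intro _ h
    rw [Nat.cast_one] at h
    exact absurd ((Ideal.eq_top_iff_one P).2 h) hP.ne_top
  | prime_mul p a hp ih =>
    intro h0 h
    rw [Nat.cast_mul] at h
    rcases hP.mem_or_mem h with h1 | h1
    · exact ⟨p, hp, h1⟩
    · exact ih (fun h2 => h0 (by rw [h2, mul_zero])) h1

/-- A nonzero prime ideal contains a prime number `p`; its norm is `p`, or it is generated by `p`. -/
theorem O8b_prime_cases (h2 : S_O2) [SqK k] (P : Ideal (OO k)) (hP : P.IsPrime) (h0 : P ≠ ⊥) :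
    ∃ p : ℕ, p.Prime ∧ (p : OO k) ∈ P ∧ (NI P = p ∨ P = sp (p : OO k)) := by
  obtain ⟨-, -, -, hsp, hmul, hbot, -, -⟩ := h2 k
  have hN : NI P ≠ 0 := fun h => h0 ((hbot P).1 h)
  have hmem : ((NI P : ℕ) : OO k) ∈ P := Ideal.absNorm_mem P
  obtain ⟨p, hp, hpP⟩ := O8b_exists_prime P hP (NI P) hN hmem
  refine ⟨p, hp, hpP, ?_⟩
  have hle : sp (p : OO k) ≤ P := (Ideal.span_singleton_le_iff_mem P).2 hpP
  obtain ⟨J, hJ⟩ := Ideal.dvd_iff_le.2 hle
  have h3 : NI P * NI J = p ^ 2 := by
    have h4 : (NI (sp (p : OO k)) : ℤ) = (p : ℤ) ^ 2 := by rw [hsp, Nm_nat]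
    rw [hJ, hmul] at h4
    exact_mod_cast h4
  obtain ⟨i, hi, h5⟩ := (Nat.dvd_prime_pow hp).1 (Dvd.intro _ h3)
  have hi3 : i = 0 ∨ i = 1 ∨ i = 2 := by omega
  rcases hi3 with rfl | rfl | rfl
  · rw [pow_zero, O8b_NI] at h5
    exact absurd (Ideal.absNorm_eq_one_iff.1 h5) hP.ne_top
  · left
    rw [h5, pow_one]
  · right
    rw [h5] at h3
    have h6 : NI J = 1 := by
      have h7 : 0 < p ^ 2 := pow_pos hp.pos 2
      exact Nat.eq_of_mul_eq_mul_left h7 (by rw [h3, mul_one])
    rw [O8b_NI] at h6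
    rw [hJ, Ideal.absNorm_eq_one_iff.1 h6, Ideal.mul_top]

theorem sO8b (h2 : S_O2) : S_O8b := by
  intro k _ β hβ hco C hC1 hCm hC
  obtain ⟨-, -, -, hsp, hmul, hbot, -, -⟩ := h2 k
  have hβ0 : sp β ≠ ⊥ := fun h => hβ (Ideal.span_singleton_eq_bot.1 h)
  have key : ∀ (n : ℕ) (J : Ideal (OO k)), NI J = n → J ∣ sp β → C J := by
    intro n
    induction n using Nat.strong_induction_on with
    | _ n ih =>
      intro J hJn hJ
      by_cases hJt : J = ⊤
      · rw [hJt]
        exact hC1
      have hJ0 : J ≠ ⊥ := by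
        intro h
        rw [h] at hJ
        exact hβ0 (zero_dvd_iff.1 hJ)
      obtain ⟨P, hPm, hJP⟩ := Ideal.exists_le_maximal J hJt
      have hPp : P.IsPrime := hPm.isPrime
      have hP0 : P ≠ ⊥ := by
        intro h
        rw [h] at hJP
        exact hJ0 (le_bot_iff.1 hJP)
      obtain ⟨J', hJ'⟩ := Ideal.dvd_iff_le.2 hJP
      obtain ⟨p, hp, hpP, h3⟩ := O8b_prime_cases h2 P hPp hP0
      have hPβ : P ∣ sp β := (Dvd.intro _ hJ'.symm).trans hJ
      have hPN : NI P = p := by
        rcases h3 with h3 | h3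
        · exact h3
        · exfalso
          have h4 : β ∈ sp (p : OO k) := by
            rw [← h3]
            exact Ideal.dvd_iff_le.1 hPβ (Ideal.mem_span_singleton_self β)
          have h5 : (p : OO k) ∣ β := Ideal.mem_span_singleton.1 h4
          obtain ⟨h6, h7⟩ := (nat_dvd_iff p β).1 h5
          have h8 : IsUnit (p : ℤ) := hco.isUnit_of_dvd' h6 h7
          exact (Nat.prime_iff_prime_int.1 hp).not_unit h8
      have hdeg : Deg1 P p := ⟨hPp, hP0, hp, hPN⟩
      have hCP : C P := by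
        apply hC P p hdeg
        obtain ⟨Q, hQ⟩ := hPβ
        rw [← hsp, hQ, hmul, hPN]
        push_cast
        exact Dvd.intro _ rfl
      have hn : NI J' < n := by
        rw [← hJn, hJ', hmul, hPN]
        have h9 : NI J' ≠ 0 := by
          intro h
          apply hJ0
          rw [hJ', (hbot J').1 h, Ideal.mul_bot]
        have h10 : 1 < p := hp.one_lt
        calc NI J' = 1 * NI J' := (one_mul _).symm
          _ < p * NI J' := Nat.mul_lt_mul_of_pos_right h10 (Nat.pos_of_ne_zero h9)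
      have hJ'd : J' ∣ sp β := (Dvd.intro_left _ hJ'.symm).trans hJ
      rw [hJ']
      exact hCm P J' hCP (ih (NI J') hn J' rfl hJ'd)
  exact key _ (sp β) rfl dvd_rfl

end Pool.Agent.DK
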